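import Mathlib

set_option autoImplicit false

namespace Pool.Agent.Results.MP_4ee39a_co.JetsNotVWC

/-- `W` is a vertex cover of the hypergraph with edge set `E`: it meets every edge. -/
def IsCover {V : Type} (E : Set (Finset V)) (W : Finset V) : Prop :=
  ∀ e ∈ E, ∃ v ∈ e, v ∈ W

/-- `W` is a minimal vertex cover: a vertex cover no proper subset of which is a vertex cover. -/
def IsMinCover {V : Type} (E : Set (Finset V)) (W : Finset V) : Prop :=
  IsCover E W ∧ ∀ W' : Finset V, W' ⊂ W → ¬ IsCover E W'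

/-- `E` is `d`-uniform (hence a clutter) and every minimal vertex cover `W` of it has exactly
`|V| / d` elements, i.e. `d * |W| = |V|`. -/
def VeryWellCovered {V : Type} [Fintype V] (d : ℕ) (E : Set (Finset V)) : Prop :=
  (∀ e ∈ E, e.card = d) ∧ ∀ W : Finset V, IsMinCover E W → d * W.card = Fintype.card V

/-- The clutter of `s`-jets: on the vertex set `X × {0,...,s}`, its edges are all sets
`{(x, i x) : x ∈ e}` with `e ∈ E` and `∑_{x ∈ e} i x ≤ s`. -/
def jets {X : Type} [DecidableEq X] (s : ℕ) (E : Set (Finset X)) :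
    Set (Finset (X × Fin (s + 1))) :=
  {f | ∃ e ∈ E, ∃ i : X → Fin (s + 1), (∑ x ∈ e, (i x : ℕ)) ≤ s ∧
    f = e.image (fun x => (x, i x))}

/-- The clutter `{abc, a'bc, ab'c, abc'}` with `a,b,c = 0,1,2` and `a',b',c' = 3,4,5`. -/
def C : Finset (Finset (Fin 6)) := {{0, 1, 2}, {3, 1, 2}, {0, 4, 2}, {0, 1, 5}}

theorem C_vwc : VeryWellCovered 3 (↑C : Set (Finset (Fin 6))) := by
  refine ⟨?_, ?_⟩
  · intro e he
    have h : ∀ e ∈ C, e.card = 3 := by decide
    exact h e (by simpa using he)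
  · intro W hW
    obtain ⟨h1, h2⟩ := hW
    have key : ∀ W : Finset (Fin 6), (∀ e ∈ C, ∃ v ∈ e, v ∈ W) →
        (∀ w ∈ W, ¬ ∀ e ∈ C, ∃ v ∈ e, v ∈ W.erase w) → 3 * W.card = 6 := by
      decide +kernel
    have h := key W (fun e he => h1 e (by simpa using he)) (fun w hw hc =>
      h2 (W.erase w) (Finset.erase_ssubset hw) (fun e he => hc e (by simpa using he)))
    rw [h]
    rfl

/-- The set `{a_0, b_0, c_0}`. -/
def W0 : Finset (Fin 6 × Fin 2) := {(0, 0), (1, 0), (2, 0)}

theorem W0_min : IsMinCover (jets 1 (↑C : Set (Finset (Fin 6)))) W0 := by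
  refine ⟨?_, ?_⟩
  · rintro f ⟨e, he, i, hi, rfl⟩
    have he' : e ∈ C := by simpa using he
    have key : ∀ e ∈ C, ∀ i : Fin 6 → Fin 2, (∑ x ∈ e, (i x : ℕ)) ≤ 1 →
        ∃ v ∈ e, v < 3 ∧ i v = 0 := by
      decide +kernel
    obtain ⟨v, hv, hv3, hv0⟩ := key e he' i hi
    refine ⟨(v, i v), Finset.mem_image_of_mem _ hv, ?_⟩
    rw [hv0]
    revert hv3
    clear hv hv0
    revert v
    decide
  · intro W' hW' hc
    obtain ⟨hsub, hne⟩ := Finset.ssubset_iff_subset_ne.mp hW'
    obtain ⟨p, hp, hp'⟩ : ∃ p ∈ W0, p ∉ W' := by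
      by_contra hcon
      push Not at hcon
      exact hne (Finset.Subset.antisymm hsub hcon)
    -- for each element `p` of `W0` there is an edge meeting `W0` only in `p`
    have key : ∀ p ∈ W0, ∃ e ∈ C, ∃ i : Fin 6 → Fin 2, (∑ x ∈ e, (i x : ℕ)) ≤ 1 ∧
        ∀ x ∈ e, (x, i x) ∈ W0 → (x, i x) = p := by
      intro p hp
      simp only [W0, Finset.mem_insert, Finset.mem_singleton] at hp
      rcases hp with rfl | rfl | rfl
      · exact ⟨{0, 4, 2}, by decide, ![0, 0, 1, 0, 0, 0], by decide, by decide⟩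
      · exact ⟨{3, 1, 2}, by decide, ![0, 0, 1, 0, 0, 0], by decide, by decide⟩
      · exact ⟨{3, 1, 2}, by decide, ![0, 1, 0, 0, 0, 0], by decide, by decide⟩
    obtain ⟨e, he, i, hi, hx⟩ := key p hp
    obtain ⟨q, hq, hqW⟩ := hc (e.image (fun x => (x, i x)))
      ⟨e, by simpa using he, i, hi, rfl⟩
    obtain ⟨x, hxe, rfl⟩ := Finset.mem_image.mp hq
    have := hx x hxe (hsub hqW)
    exact hp' (this ▸ hqW)

/-- The jets of a very well-covered uniform clutter need not be very well-covered: there are `d`,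
a very well-covered `d`-uniform clutter on a finite set `X`, some `s ≥ 1` and a minimal vertex cover
of its clutter of `s`-jets whose size differs from `(s + 1) |X| / d`. -/
theorem result :
    ∃ (X : Type) (_ : Fintype X) (_ : DecidableEq X) (d : ℕ) (E : Set (Finset X)),
      VeryWellCovered d E ∧
        ∃ s : ℕ, 1 ≤ s ∧ ∃ W : Finset (X × Fin (s + 1)),
          IsMinCover (jets s E) W ∧ d * W.card ≠ (s + 1) * Fintype.card X := by
  refine ⟨Fin 6, inferInstance, inferInstance, 3, (↑C : Set (Finset (Fin 6))), C_vwc, 1, le_rfl,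
    W0, W0_min, ?_⟩
  have h2 : W0.card = 3 := by decide
  rw [h2]
  simp

end Pool.Agent.Results.MP_4ee39a_co.JetsNotVWC
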